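import Mathlib
import Pool.Agent.Q22.NT.Core

/-!
# The weak form of the conjecture of Manin for norm equations in toric varieties

Let `V` be a smooth projective split toric variety over the rational numbers, of any dimension and
with any Picard number `r`, given by its homogeneous (Cox) coordinates: these are `N ≥ 1` coordinates
`w i`, and for each `i < s` the `[K i : ℚ]` coordinates of an element `y i` of a number field `K i` (of
any degree), which have all the same class. Let `X ⊆ V` be given by the `q` equations

  `∏ (e i = j), N_{K i / ℚ} (y i) = G j (w)`,   `j < q`,

where the `G j` are any nonzero polynomials with integral coefficients such that the equations are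
homogeneous, and such that the points outside of `V` have codimension at least two in the affine cone
of `X` (this is the combinatorial condition `Homog.cod`).

The theorem: there is a nonempty open subset `U` of `X` (given by `w i ≠ 0`, `G j (w) ≠ 0`), which does
not depend on `L`, such that for all big classes `L` of `V` and all `ε > 0` the number of rational
points of `U` with `H_L ≤ T` is finite and at most `C T ^ (a(X, L) + ε)`.

* `SmoothToric cl A`: the classes `cl` of the coordinates and the ample class `A` define a smooth
  projective toric variety `V` with Picard group `ℤ^r`.
* `Coprime`: the integral coprime coordinates of the rational points of `V` (each point has exactly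
  `2 ^ r` of them); `Pts K cl A e G L T` is the set of all coordinates of this kind of the rational
  points of `U` with height at most `T`.
* `HtLe`: the height with respect to `L` is the maximum of all monomials (with real exponents) of the
  class `L` in the sizes of the coordinates; for nef `L` this is the height `H_L`.
* `fuj cl L` is the infimum of all `a` such that `a L + K_X` lies in the cone `Eff cl` generated by the
  classes of the coordinates, where `K_X = -∑ (class of w i)` by adjunction. `L` is big if it lies in
  the interior of this cone. (By the condition on the codimension, the sections of the line bundles of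
  `V` on `X` are the homogeneous elements of the coordinate ring, so that the classes of `V` which are
  effective on `X` are the classes in this cone.)

Examples (`V` is a projective bundle, or a product, in most of them): all smooth quadrics of positive
dimension; the smooth fibre products of quadric bundles `a_j y_{j0}² + b_j y_{j1}² = G_j (t, z_j)` over
any smooth projective toric variety with the coordinates `t`, e.g. the blow-ups of smooth quadrics in
smooth linear sections, and the conic bundles `a y₀² + b y₁² = f(t) z²`; the smooth divisors of type
`(1,1)` in `ℙᵐ × ℙⁿ` with `m, n ≥ 2`; the smooth varieties with a torus action of complexity one whose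
Cox ring is given by a trinomial with a squarefree term, if the ambient toric variety is smooth; the
normic bundles `N_{K/ℚ} (y) = f (t) z ^ n`, and their fibre products. If `X` is singular, it has
canonical singularities (as the base change of a toroidal variety), and the theorem is the conjecture
for all resolutions of `X` and all pullbacks of `L`.

The proof: the monomials which express `a L + K_X ∈ Eff` show that the product of all `|w i|` is at most
`T ^ (a + ε)` for a point of height at most `T`; and a point is given by its coordinates `w i` up to
`T ^ ε` possibilities, because `y i` is a divisor of `G j (w)` with bounded conjugates.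
-/

set_option autoImplicit false

namespace Pool.Agent.Results.MP_18ea5f_nt.NormEquationsInToricVarieties

open Pool.Agent.Q22.NT

theorem result {r N s q : ℕ} (cl : Fin N ⊕ Fin s → Fin r → ℤ) (A : Fin r → ℤ)
    (hV : SmoothToric cl A) (K : Fin s → Type) [∀ i, Field (K i)] [∀ i, NumberField (K i)]
    (e : Fin s → Fin q) (G : Fin q → MvPolynomial (Fin N) ℤ) (hG : Homog K cl A e G) (hN : 1 ≤ N) :
    (∃ w : Fin N → ℤ, (∀ i, w i ≠ 0) ∧ ∀ j, MvPolynomial.eval w (G j) ≠ 0) ∧
    ∀ L : Fin r → ℝ, L ∈ interior (Eff cl) → ∀ ε : ℝ, 0 < ε → ∃ C : ℝ, ∀ T : ℝ, 1 ≤ T →
      (Pts K cl A e G L T).Finite ∧
      ((Pts K cl A e G L T).ncard : ℝ) ≤ C * T ^ (fuj cl L + ε) := by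
  constructor
  · have h1 : (∏ i, (MvPolynomial.X i : MvPolynomial (Fin N) ℤ)) * ∏ j, G j ≠ 0 := by
      refine mul_ne_zero (Finset.prod_ne_zero_iff.2 fun i _ => MvPolynomial.X_ne_zero i)
        (Finset.prod_ne_zero_iff.2 fun j _ => hG.ne j)
    obtain ⟨w, hw⟩ : ∃ w : Fin N → ℤ, MvPolynomial.eval w
        ((∏ i, (MvPolynomial.X i : MvPolynomial (Fin N) ℤ)) * ∏ j, G j) ≠ 0 := by
      by_contra hno
      push Not at hno
      exact h1 (MvPolynomial.funext fun w => by rw [hno w, map_zero])
    rw [map_mul, map_prod, map_prod, mul_ne_zero_iff, Finset.prod_ne_zero_iff,
      Finset.prod_ne_zero_iff] at hw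
    refine ⟨w, fun i => ?_, fun j => hw.2 j (Finset.mem_univ j)⟩
    simpa using hw.1 i (Finset.mem_univ i)
  · intro L hL ε hε
    obtain ⟨C, hC, h⟩ := upper (K := K) cl hV.pos ⟨0, hN⟩ e G L hL ε hε
    exact ⟨C, fun T hT => finite_of_card_le _ _ fun f hf => h T hT f fun P hP => (hf P hP).2⟩

end Pool.Agent.Results.MP_18ea5f_nt.NormEquationsInToricVarieties
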