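import Pool.Agent.H437R2.Man.Final
import Pool.Agent.H437R2.Man.Mord
import Pool.Agent.H437R2.Man.Low
import Pool.Agent.H437R2.Man.Defs3

/-!
# The weak form of the conjecture of Manin for a threefold fibred into quadric surfaces, over all number fields

Let `X ⊆ ℙ¹⁴` be the threefold of the points with coordinates
`c₀ sⁱ t²⁻ⁱ, c₁ sⁱ t²⁻ⁱ, u sⁱ t²⁻ⁱ` (`i ≤ 2`) and `v sʲ t⁵⁻ʲ` (`j ≤ 5`), where
`c₀ c₁ = u² - (s⁶ + t⁶) v²`; it is given by the quadrics in `SX ℚ` (the `2 × 2` minors of a scroll
and the quadrics which express the equation). It is fibred into quadric surfaces over the line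
with the coordinates `(s : t)`.

* `Zer K S` is the set of the `K`-points of the closed subset of projective space given by `S`;
* `SmoothDim`, `ZIrred`, `RatConn`: smooth of pure dimension three (Jacobian criterion), irreducible in
  the Zariski topology, and any two complex points are joined by a morphism from the line;
* `NK E S A H` is the number of the `E`-rational points of `X` outside of the closed set `A` with
  height (relative to `E`) at most `H`.

The theorem: `X` is smooth, irreducible and rationally connected. For every number field `K` there are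
finitely many fibres such that outside of these fibres there are at most `C H²` points of height
at most `H`, for all `H ≥ 1`. On the other hand for every proper closed subset `A` of `X` and every
number field there is a larger number field `E` such that outside of `A` there are at least
`c H² log H` points over `E`.
-/

set_option autoImplicit false

open scoped LinearAlgebra.Projectivization

namespace Pool.Agent.Results.MP_18ea5f_nt.QuadricBundleThreefold

open Pool.Agent.H437R2.Man

/-- The union of the fibres of `X` over the points of `T`. -/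
def Fibres (T : Finset (Qb × Qb)) : Set (ℙ Qb (I15 → Qb)) :=
  ⋃ p ∈ T, Fib p.1 p.2

/-- `A` is closed and a proper subset of `X`. -/
def Proper (A : Set (ℙ Qb (I15 → Qb))) : Prop :=
  ZClosed A ∧ A ⊂ Zer Qb (SX ℚ)

/-- There are finitely many fibres outside of which there are at most `C H²` points over `K` of
height at most `H`. -/
def FewPoints (K : IntermediateField ℚ Qb) [NumberField K] : Prop :=
  ∃ T : Finset (Qb × Qb), (∀ p ∈ T, p.1 ≠ 0 ∨ p.2 ≠ 0) ∧ Proper (Fibres T) ∧
    ∃ C : ℝ, ∀ H : ℝ, 1 ≤ H → (NK K (SX ℚ) (Fibres T) H : ℝ) ≤ C * H ^ 2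

/-- There are at least `c H² log H` points over `E` of height at most `H` outside of `A`, for all
large `H`. -/
def ManyPoints (E : IntermediateField ℚ Qb) [NumberField E] (A : Set (ℙ Qb (I15 → Qb))) : Prop :=
  ∃ c H₀ : ℝ, 0 < c ∧ ∀ H : ℝ, H₀ ≤ H → c * (H ^ 2 * Real.log H) ≤ (NK E (SX ℚ) A H : ℝ)

theorem result :
    (Homog (SX ℚ) ∧ SmoothDim (Zer Qb (SX ℚ)) 3 ∧ ZIrred (Zer Qb (SX ℚ)) ∧
      RatConn (Zer ℂ (SX ℚ))) ∧
    BallsFinite ∧
    (∀ (K : IntermediateField ℚ Qb) [NumberField K], FewPoints K) ∧
    (∀ (K : IntermediateField ℚ Qb) [NumberField K] (A : Set (ℙ Qb (I15 → Qb))), Proper A →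
      ∃ (E : IntermediateField ℚ Qb) (_ : NumberField E), K ≤ E ∧ ManyPoints E A) := by
  classical
  refine ⟨⟨geo_homog, geo_smooth, geo_irred, geo_ratconn⟩, fun K _ _ H => Fin_.northcott H, ?_, ?_⟩
  · intro K _
    set T : Set (Qb × Qb) := insert ((1 : Qb), (0 : Qb))
      ((fun x : K => ((x : Qb), (1 : Qb))) '' {x : K | ∃ y : K, y ^ 2 = x ^ 6 + 1}) with hT
    have hTfin : T.Finite := ((mordell K).image _).insert _
    have hT0 : ∀ p ∈ T, p.1 ≠ 0 ∨ p.2 ≠ 0 := by
      intro p hp
      rcases hp with rfl | ⟨x, _, rfl⟩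
      · left; exact one_ne_zero
      · right; exact one_ne_zero
    have hE : ZClosed (∅ : Set (ℙ Qb (I15 → Qb))) := by
      refine ⟨{1}, ?_, ?_⟩
      · intro f hf
        rw [Set.mem_singleton_iff] at hf
        exact ⟨0, by rw [hf]; exact MvPolynomial.isHomogeneous_one _ _⟩
      · ext P
        simp [Zer]
    have hEX : (∅ : Set (ℙ Qb (I15 → Qb))) ⊂ Zer Qb (SX ℚ) := by
      rw [Set.empty_ssubset]
      exact geo_irred.1
    obtain ⟨hcl, hpr⟩ := geo_add_fib ∅ hE hEX T hTfin hT0
    rw [Set.empty_union] at hcl hpr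
    have hU : (⋃ p ∈ hTfin.toFinset, (Fib p.1 p.2 : Set (ℙ Qb (I15 → Qb)))) =
        ⋃ p ∈ T, Fib p.1 p.2 := by
      simp only [Set.Finite.mem_toFinset]
    refine ⟨hTfin.toFinset, fun p hp => hT0 p (hTfin.mem_toFinset.1 hp), ⟨?_, ?_⟩, ?_⟩
    · rw [Fibres, hU]; exact hcl
    · rw [Fibres, hU]; exact hpr
    · rw [Fibres, hU]
      obtain ⟨C, _, hN⟩ := Fin_.upper_N K (⋃ p ∈ T, Fib p.1 p.2)
        (by
          intro P hP
          exact Set.mem_biUnion (x := ((1 : Qb), (0 : Qb))) (Set.mem_insert _ _) hP)
        (by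
          intro x hx P hP
          exact Set.mem_biUnion (x := ((x : Qb), (1 : Qb)))
            (Set.mem_insert_of_mem _ ⟨x, hx, rfl⟩) hP)
      exact ⟨C, hN⟩
  · rintro K _ A ⟨hA, hAX⟩
    exact Fin_.lower_N (fun K L _ _ _ _ s t e he hst g hg hne => lower K L s t e he hst g hg hne)
      K A hA hAX

end Pool.Agent.Results.MP_18ea5f_nt.QuadricBundleThreefold
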